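import Pool.Agent.MP_ed9623_an.H77.SpecW

/-! Third order tangential regularity for the scalar equation. -/

open MeasureTheory Filter Topology Set
open scoped ContDiff

namespace Pool.Agent.MP_ed9623_an.H77

open H64

namespace Reg3

variable {γ : ℝ → ℝ} {r r' σ : ℝ} {W F : P → ℝ} {d : Fin 2 → P → ℝ}

theorem reg (hR : Reg0S) (hγ : Gam γ) (hσ : σ ≤ 0) (h0 : 0 < r') (h1 : r' < r)
    (h : So γ σ r W d F) :
    ∃ dY : Fin 2 → P → ℝ, ∀ i, M2 (dY i) ∧ WD (Q r') (ee 0) (d i) (dY i) := by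
  have a := nm_nonneg W
  have b := nm_nonneg (d 0)
  have c := nm_nonneg (d 1)
  have e := nm_nonneg F
  obtain ⟨C, -, hC⟩ := hR γ σ r r' (nm W + nm (d 0) + nm (d 1) + nm F) hγ hσ h0 h1 (by linarith)
  have key := hC W d F h (by linarith) (Fin.forall_fin_two.2 ⟨by linarith, by linarith⟩)
    (HB.zero h.mF (by linarith))
  choose dY m _ w using key
  exact ⟨dY, fun i => ⟨m i, w i⟩⟩

/-- Removing a multiple of another function. -/
theorem peel {O : Set P} {e : P} {f g k l : P → ℝ} {m : ℝ → ℝ} (hm : Gam m) (hf : M2 f)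
    (hg : M2 g) (hk : M2 k) (hl : M2 l) (h : WD O e (fun p => f p + m p.1 * g p) k)
    (h' : WD O e g l) {m' : ℝ → ℝ} (hm' : Gam m')
    (e' : ∀ p, pd e (fun p : P => m p.1) p = m' p.1) :
    M2 (fun p => k p - (m p.1 * l p + m' p.1 * g p)) ∧
      WD O e f fun p => k p - (m p.1 * l p + m' p.1 * g p) := by
  have a := h'.smul hg hl hm.smP
  simp only [e'] at a
  have b := (hl.gmul hm).add (hg.gmul hm')
  refine ⟨hk.sub b, (h.sub a (hf.add (hg.gmul hm)) hk (hg.gmul hm) b).congr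
    (Eventually.of_forall fun p _ => by ring) (Eventually.of_forall fun _ _ => rfl)⟩

end Reg3

open Reg3 in
theorem rowReg3 : OfReg3 := by
  intro hR hN γ r r' R W F d hγ h0 h1 h ⟨FY, mFY, _, wF⟩
  have a1 : r' < (r + r') / 2 := by linarith
  have a2 : (r + r') / 2 < r := by linarith
  obtain ⟨dY, hY⟩ := reg hR hγ le_rfl (h0.trans a1) a2 h
  have s1 := h.mono a2.le
  obtain ⟨n1, n2⟩ := hN γ 0 _ W F d dY hγ s1 fun i => (hY i).1
  obtain ⟨mS, w1, w0⟩ := n1 fun i => (hY i).2.mono (Qp_sub _ _)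
  set dS : Fin 2 → P → ℝ := ![fun p => dY 1 p - deriv γ p.1 * nS γ F dY p, nS γ F dY] with hdS
  have mdS : ∀ i, M2 (dS i) := Fin.forall_fin_two.2 ⟨(hY 1).1.sub (mS.gmul hγ.deriv), mS⟩
  have wdS : ∀ i, WD (Qp 0 ((r + r') / 2)) (ee 1) (d i) (dS i) := Fin.forall_fin_two.2 ⟨w0, w1⟩
  have s2 := n2 dS FY mdS mFY (fun i => (hY i).2) wdS (wF.mono (Qp_mono a2.le))
  obtain ⟨eY, kY⟩ := reg hR hγ le_rfl h0 a1 s2
  obtain ⟨mT, v1, v0⟩ := (hN γ 0 _ _ _ _ eY hγ (s2.mono a1.le) fun i => (kY i).1).1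
    fun i => (kY i).2.mono (Qp_sub _ _)
  have y : ∀ i, WD (Q r') (ee 0) (d i) (dY i) := fun i => (hY i).2.mono (Q_mono a1.le)
  have s : ∀ i, WD (Qp 0 r') (ee 1) (d i) (dS i) := fun i => (wdS i).mono (Qp_mono a1.le)
  obtain ⟨b1, b2⟩ := peel hγ.deriv.deriv (hY 0).1 (h.h1.md 1) (kY 0).1 (hY 1).1 (kY 0).2 (y 1)
    hγ.deriv.deriv.deriv hγ.deriv.deriv.pd0
  obtain ⟨c1, c2⟩ := peel hγ.deriv.deriv (hY 0).1 (h.h1.md 1) ((kY 1).1.sub (mT.gmul hγ.deriv))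
    (mdS 1) v0 (s 1) Gam.zero hγ.deriv.deriv.pd1
  refine ⟨dY, dS, ![_, eY 1], ![_, _], Fin.forall_fin_two.2 ⟨⟨(hY 0).1, mdS 0, b1, c1⟩,
    (hY 1).1, mdS 1, (kY 1).1, mT⟩, y, s, Fin.forall_fin_two.2 ⟨b2, (kY 1).2⟩,
    Fin.forall_fin_two.2 ⟨(s 0).comm ((y 0).mono (Qp_sub _ _)) c2,
      (s 1).comm ((y 1).mono (Qp_sub _ _)) v1⟩, Eventually.of_forall fun p _ => ?_⟩
  have : (1 : ℝ) + deriv γ p.1 ^ 2 ≠ 0 := by positivity
  simp only [hdS, Matrix.cons_val_zero, Matrix.cons_val_one, nS]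
  field_simp
  ring

end Pool.Agent.MP_ed9623_an.H77
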