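import Pool.Agent.MP_ed9623_an.H77.SpecW

/-! Averages over segments in the first variable. -/

open MeasureTheory Filter Topology Set
open scoped ContDiff

namespace Pool.Agent.MP_ed9623_an.H77

open H64

namespace Av

variable {f g φ : P → ℝ}

/-- The shear. -/
def T (z : P × ℝ) : P := (z.1.1 + z.2, z.1.2)

/-- Lebesgue measure on the segment. -/
noncomputable def nu (h : ℝ) : Measure ℝ := volume.restrict (uIoc 0 h)

instance (h : ℝ) : IsFiniteMeasure (nu h) :=
  isFiniteMeasure_restrict.2 (by rw [Real.volume_uIoc]; exact ENNReal.ofReal_ne_top)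

theorem nu_univ (h : ℝ) : (nu h).real univ = |h| := by
  simp [nu, Measure.real, Real.volume_uIoc]

theorem qmp (ν : Measure ℝ) [SFinite ν] :
    Measure.QuasiMeasurePreserving T ((volume : Measure P).prod ν) volume :=
  QuasiMeasurePreserving.prod_of_left (by unfold T; fun_prop)
    (Eventually.of_forall fun r => (mp_sh r).quasiMeasurePreserving)

theorem intT {G : P → ℝ} (hG : Integrable G) (h : ℝ) :
    Integrable (fun z => G (T z)) ((volume : Measure P).prod (nu h)) := by
  refine (integrable_prod_iff' (hG.1.comp_quasiMeasurePreserving (qmp _))).2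
    ⟨Eventually.of_forall fun r => (mp_sh r).integrable_comp_of_integrable hG, ?_⟩
  have e : (fun r : ℝ => ∫ p : P, ‖(G ∘ T) (p, r)‖) = fun _ => ∫ p, ‖G p‖ :=
    funext fun r => int_sh r fun p => ‖G p‖
  rw [e]
  exact integrable_const _

theorem memT (hf : M2 f) (h : ℝ) : MemLp (fun z => f (T z)) 2 ((volume : Measure P).prod (nu h)) :=
  (memLp_two_iff_integrable_sq (hf.meas.comp_quasiMeasurePreserving (qmp _))).2 (intT hf.int_sq h)

theorem cs {ν : Measure ℝ} [IsFiniteMeasure ν] {u : ℝ → ℝ} (h1 : Integrable u ν)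
    (h2 : Integrable (fun r => u r ^ 2) ν) :
    (∫ r, u r ∂ν) ^ 2 ≤ ν.real univ * ∫ r, u r ^ 2 ∂ν := by
  have key := discrim_le_zero (a := ν.real univ) (b := -2 * ∫ r, u r ∂ν) (c := ∫ r, u r ^ 2 ∂ν)
    fun x => by
      have a : 0 ≤ ∫ r, (u r - x) ^ 2 ∂ν := integral_nonneg fun r => sq_nonneg _
      have e : (fun r => (u r - x) ^ 2) = fun r => (u r ^ 2 - 2 * x * u r) + x ^ 2 :=
        funext fun r => by ring
      have i : Integrable (fun r => u r ^ 2 - 2 * x * u r) ν := h2.sub (h1.const_mul _)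
      rw [e, integral_add i (integrable_const _),
        integral_sub h2 (h1.const_mul _), integral_const_mul, integral_const, smul_eq_mul] at a
      linarith
  rw [discrim] at key
  linarith

theorem av_eq (h : ℝ) (f : P → ℝ) (p : P) :
    av h f p = (if 0 ≤ h then 1 else -1 : ℝ) * ∫ r, f (T (p, r)) ∂nu h :=
  intervalIntegral.intervalIntegral_eq_integral_uIoc _ _ _ _

theorem av_m2 (hf : M2 f) (h : ℝ) : M2 (av h f) ∧ nm (av h f) ≤ |h| * nm f := by
  have m := memT hf h
  have i := intT hf.int_sq h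
  have ms : AEStronglyMeasurable (av h f) volume := by
    rw [funext (av_eq h f)]
    exact m.1.integral_prod_right'.const_mul _
  have pt : ∀ᵐ p : P, av h f p ^ 2 ≤ |h| * ∫ r, f (T (p, r)) ^ 2 ∂nu h := by
    filter_upwards [i.prod_right_ae, m.1.prodMk_left] with p a b
    have c := cs (((memLp_two_iff_integrable_sq b).2 a).integrable one_le_two) a
    rw [nu_univ] at c
    rw [av_eq, mul_pow]
    split_ifs <;> simpa using c
  have i2 := i.integral_prod_left.const_mul |h|
  have i3 : Integrable fun p => av h f p ^ 2 :=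
    i2.mono' (ms.pow 2) (pt.mono fun p hp => by rwa [Real.norm_of_nonneg (sq_nonneg _)])
  refine ⟨M2.of_int ms i3, ?_⟩
  refine (pow_le_pow_iff_left₀ (nm_nonneg _) (mul_nonneg (abs_nonneg h) (nm_nonneg f))
    two_ne_zero).1 ?_
  rw [nm_sq, mul_pow, nm_sq]
  refine (integral_mono_ae i3 i2 pt).trans_eq ?_
  have e : (fun r : ℝ => ∫ p : P, f (T (p, r)) ^ 2) = fun _ => ∫ p, f p ^ 2 :=
    funext fun r => int_sh r fun p => f p ^ 2
  rw [integral_const_mul, integral_integral_swap (f := fun p r => f (T (p, r)) ^ 2) i, e,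
    integral_const, nu_univ, smul_eq_mul, sq, mul_assoc]

theorem fub (hf : M2 f) (hg : M2 g) (h : ℝ) :
    ∫ p, av h f p * g p = ∫ r in (0 : ℝ)..h, ∫ p, sh r f p * g p := by
  have i : Integrable (fun z : P × ℝ => f (T z) * g z.1) ((volume : Measure P).prod (nu h)) :=
    MemLp.integrable_mul (memT hf h) (MemLp.comp_fst hg (nu h))
  rw [intervalIntegral_integral_swap (f := fun r p => sh r f p * g p) i.swap]
  refine integral_congr_ae (Eventually.of_forall fun p => ?_)
  exact (intervalIntegral.integral_mul_const _ _).symm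

theorem adj_av (hf : M2 f) (hg : M2 g) (h : ℝ) :
    ∫ p, av h f p * g p = -∫ p, f p * av (-h) g p := by
  have e : ∀ r, ∫ p, sh r f p * g p = ∫ p, sh (-r) g p * f p := fun r => by
    rw [← int_mul_sh]
    simp only [mul_comm]
  have e' : ∫ p, f p * av (-h) g p = ∫ p, av (-h) g p * f p := by simp only [mul_comm]
  rw [e', fub hf hg, fub hg hf, funext e,
    intervalIntegral.integral_comp_neg fun r => ∫ p, sh r g p * f p, neg_zero,
    intervalIntegral.integral_symm]

theorem av_pd (hφ : ContDiff ℝ ∞ φ) (h : ℝ) : av h (pd (ee 0) φ) = dl h φ := by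
  funext p
  have c : Continuous fun r : ℝ => pd (ee 0) φ (p.1 + r, p.2) :=
    (sm_pd hφ _).continuous.comp (by fun_prop)
  have d : ∀ r : ℝ, HasDerivAt (fun r : ℝ => φ (p.1 + r, p.2)) (pd (ee 0) φ (p.1 + r, p.2)) r :=
    fun r => (sm_diff hφ _).hasFDerivAt.comp_hasDerivAt r
      (((hasDerivAt_id r).const_add p.1).prodMk (hasDerivAt_const r p.2))
  have := intervalIntegral.integral_eq_sub_of_hasDerivAt (a := 0) (b := h) (fun r _ => d r)
    (c.intervalIntegrable _ _)
  rw [add_zero] at this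
  exact this

theorem wd0 (hf : M2 f) (h : ℝ) : WD univ (ee 0) (av h f) (dl h f) := fun φ hφ => by
  rw [adj_av hf (hφ.pd _).m2, av_pd hφ.1, int_mul_dl hf hφ.m2]

theorem wd {e : P} (hf : M2 f) (hg : M2 g) (hw : WD univ e f g) (h : ℝ) :
    WD univ e (av h f) (av h g) := fun φ hφ => by
  rw [fub hf (hφ.pd _).m2, fub hg hφ.m2, ← intervalIntegral.integral_neg]
  exact intervalIntegral.integral_congr fun r _ => hw.sh r φ hφ

theorem van {a b c d : ℝ} (hf : Van (Bx a b c d) f) (h : ℝ) :
    Van (Bx (a + |h|) (b - |h|) c d) (av h f) := by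
  filter_upwards [Measure.ae_ae_of_ae_prod ((qmp volume).ae hf)] with p hp m
  refine (intervalIntegral.integral_congr_ae (g := fun _ => 0) (hp.mono fun r a1 a2 => ?_)).trans
    intervalIntegral.integral_zero
  have a3 : |r| ≤ |h| := by simpa using abs_sub_left_of_mem_uIcc (uIoc_subset_uIcc a2)
  obtain ⟨a4, a5⟩ := abs_le.1 a3
  exact a1 ⟨⟨by change a < p.1 + r; linarith [m.1.1], by change p.1 + r < b; linarith [m.1.2]⟩,
    m.2⟩

end Av

open Av in
theorem rowAv : OfAv := fun h _ hf =>
  ⟨av_m2 hf h, wd0 hf h, fun _ _ hg hw => wd hf hg hw h, fun _ hg hw => by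
    have e := ((wd hf hg hw h).uniq isOpen_univ (wd0 hf h) (av_m2 hg h).1 (hf.dl h)).mono
      fun p a => a (mem_univ p)
    exact ⟨e, (nm_congr e).symm.trans_le (av_m2 hg h).2⟩, fun _ _ _ _ hv => van hv h⟩

end Pool.Agent.MP_ed9623_an.H77
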