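import Pool.Agent.MP_ed9623_an.H77.SpecA

/-! Weak solutions are smooth in time. -/

open MeasureTheory Filter Topology Set
open scoped ContDiff InnerProductSpace

set_option linter.unusedSectionVars false

namespace Pool.Agent.MP_ed9623_an.H77

namespace Smooth

section gen

variable {E F : Type} [NormedAddCommGroup E] [NormedSpace ℝ E] [CompleteSpace E]
  [NormedAddCommGroup F] [NormedSpace ℝ F] [CompleteSpace F] {I : Set ℝ}

theorem cont_prim (hI : Itv I) {W : ℝ → E} (hW : Loc2 I W) {s : ℝ} (hs : s ∈ I) :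
    ContinuousOn (fun t => ∫ r in s..t, W r) I := by
  intro t ht
  obtain ⟨a, b, hab, hsub⟩ := mem_nhds_iff_exists_Ioo_subset.1 (hI.1.mem_nhds ht)
  have ha : (a + t) / 2 ∈ I := hsub ⟨by linarith [hab.1], by linarith [hab.1, hab.2]⟩
  have hb : (t + b) / 2 ∈ I := hsub ⟨by linarith [hab.1, hab.2], by linarith [hab.2]⟩
  have ha' : min s ((a + t) / 2) ∈ I := by
    rcases min_choice s ((a + t) / 2) with h | h <;> rw [h] <;> assumption
  have hb' : max s ((t + b) / 2) ∈ I := by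
    rcases max_choice s ((t + b) / 2) with h | h <;> rw [h] <;> assumption
  have hle : min s ((a + t) / 2) ≤ max s ((t + b) / 2) := (min_le_left _ _).trans (le_max_left _ _)
  have h1 := intervalIntegral.continuousOn_primitive_interval' (hW.ii ha' hb') (a := s)
    (by rw [uIcc_of_le hle]; exact ⟨min_le_left _ _, le_max_left _ _⟩)
  rw [uIcc_of_le hle] at h1
  refine (h1.continuousAt (Icc_mem_nhds ?_ ?_)).continuousWithinAt
  · exact (min_le_right _ _).trans_lt (by linarith [hab.1])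
  · exact lt_of_lt_of_le (by linarith [hab.2]) (le_max_right _ _)

theorem deriv_of_prim (hI : Itv I) {f g : ℝ → E} (hg : ContinuousOn g I)
    (h : ∀ s ∈ I, ∀ t ∈ I, f t - f s = ∫ r in s..t, g r) {t : ℝ} (ht : t ∈ I) :
    HasDerivAt f (g t) t := by
  have h1 : HasDerivAt (fun x => ∫ r in t..x, g r) (g t) t :=
    intervalIntegral.integral_hasDerivAt_right (by simp)
      (hg.stronglyMeasurableAtFilter hI.1 t ht) (hg.continuousAt (hI.1.mem_nhds ht))
  refine (h1.const_add (f t)).congr_of_eventuallyEq ?_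
  filter_upwards [hI.1.mem_nhds ht] with x hx
  rw [← h t ht x hx]
  abel

theorem sub_eq (hI : Itv I) (ι : F →L[ℝ] E) {z z₁ : ℝ → E} {W : ℝ → F}
    (hz : ∀ t ∈ I, HasDerivAt z (z₁ t) t) (hc : ContinuousOn z₁ I) (hW : Loc2 I W)
    (e : ∀ᵐ t, t ∈ I → ι (W t) = z₁ t) {s t : ℝ} (hs : s ∈ I) (ht : t ∈ I) :
    z t - z s = ι (∫ r in s..t, W r) := by
  rw [← ι.intervalIntegral_comp_comm (hW.ii hs ht),
    ← intervalIntegral.integral_eq_sub_of_hasDerivAt (fun r hr => hz r (hI.uIcc hs ht hr))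
      (hc.mono (hI.uIcc hs ht)).intervalIntegrable]
  exact intervalIntegral.integral_congr_ae (e.mono fun _ a b =>
    (a (hI.uIcc hs ht (uIoc_subset_uIcc b))).symm)

/-- First inclusion. -/
noncomputable def inl (E F : Type) [NormedAddCommGroup E] [NormedSpace ℝ E]
    [NormedAddCommGroup F] [NormedSpace ℝ F] : E →L[ℝ] WithLp 2 (E × F) :=
  (WithLp.prodContinuousLinearEquiv 2 ℝ E F).symm.toContinuousLinearMap.comp
    (ContinuousLinearMap.inl ℝ E F)

/-- Second inclusion. -/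
noncomputable def inr (E F : Type) [NormedAddCommGroup E] [NormedSpace ℝ E]
    [NormedAddCommGroup F] [NormedSpace ℝ F] : F →L[ℝ] WithLp 2 (E × F) :=
  (WithLp.prodContinuousLinearEquiv 2 ℝ E F).symm.toContinuousLinearMap.comp
    (ContinuousLinearMap.inr ℝ E F)

theorem pair_eq (a : E) (b : F) : WithLp.toLp 2 (a, b) = inl E F a + inr E F b := by
  simp [inl, inr, ← WithLp.toLp_add]

theorem loc_pair {f : ℝ → E} {g : ℝ → F} (hf : Loc2 I f) (hg : Loc2 I g) :
    Loc2 I fun t => WithLp.toLp 2 (f t, g t) := by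
  simp only [pair_eq]
  exact (hf.clm _).add (hg.clm _)

theorem int_pair {f : ℝ → E} {g : ℝ → F} (hf : Loc2 I f) (hg : Loc2 I g) {s t : ℝ} (hs : s ∈ I)
    (ht : t ∈ I) : ∫ r in s..t, WithLp.toLp 2 (f r, g r) =
      WithLp.toLp 2 (∫ r in s..t, f r, ∫ r in s..t, g r) := by
  simp only [pair_eq]
  rw [intervalIntegral.integral_add ((hf.clm _).ii hs ht) ((hg.clm _).ii hs ht),
    ContinuousLinearMap.intervalIntegral_comp_comm _ (hf.ii hs ht),
    ContinuousLinearMap.intervalIntegral_comp_comm _ (hg.ii hs ht)]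

end gen

/-- The statement proved by induction. -/
def Pn (n : ℕ) : Prop := ∀ {H V : Type} [NormedAddCommGroup H] [InnerProductSpace ℝ H]
    [CompleteSpace H] [NormedAddCommGroup V] [InnerProductSpace ℝ V] [CompleteSpace V]
    {S : St H V} {I : Set ℝ} {z : ℝ → H} {Z : ℝ → V}, Itv I → Wk S I z Z →
  ∃ U : ℝ → V, ContDiffOn ℝ n U I ∧ ∀ t ∈ I, S.ι (U t) = z t

theorem p0 (hD : DerS) : Pn 0 := by
  intro H V _ _ _ _ _ _ S I z Z hI h
  rcases I.eq_empty_or_nonempty with rfl | hne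
  · exact ⟨fun _ => 0, contDiffOn_empty, fun _ ht => absurd ht (notMem_empty _)⟩
  obtain ⟨z₁, Z₁, hz, hL⟩ := hD hI h
  obtain ⟨s, hs, hZ⟩ := Measure.exists_mem_of_measure_ne_zero_of_ae (μ := volume)
    (hI.1.measure_ne_zero volume hne) (p := fun t => S.ι (Z t) = z t)
    ((ae_restrict_iff' hI.1.measurableSet).2 h.lift)
  refine ⟨fun t => Z s + ∫ r in s..t, Z₁ r, ?_, fun t ht => ?_⟩
  · rw [Nat.cast_zero, contDiffOn_zero]
    exact continuousOn_const.add (cont_prim hI hL.lZ hs)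
  · rw [map_add, hZ, ← sub_eq hI S.ι hz hL.cont hL.lZ hL.lift hs ht]
    abel

theorem step (hD : DerS) (hB : DblS) {n : ℕ} (ih : Pn n) : Pn (n + 1) := by
  intro H V _ _ _ _ _ _ S I z Z hI h
  obtain ⟨z₁, Z₁, hz, hL⟩ := hD hI h
  obtain ⟨T, h1, h2, h3⟩ := hB S
  have hT : Wk T I (fun t => WithLp.toLp 2 (z t, z₁ t)) fun t => WithLp.toLp 2 (Z t, Z₁ t) := by
    refine ⟨?_, loc_pair h.lZ hL.lZ, ?_, ?_, fun s hs t ht => ?_⟩
    · simp only [pair_eq]
      exact ((inl H H).continuous.comp_continuousOn h.cont).add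
        ((inr H H).continuous.comp_continuousOn hL.cont)
    · simp only [h3]
      exact loc_pair h.lG hL.lG
    · filter_upwards [h.lift, hL.lift] with t a b ht
      rw [h1, a ht, b ht]
    · simp only [h3]
      rw [int_pair h.lG hL.lG hs ht, ← h.eq s hs t ht, ← hL.eq s hs t ht, h2, h2,
        ← WithLp.toLp_sub, Prod.mk_sub_mk]
  obtain ⟨W, hW, hW'⟩ := ih hI hT
  have hW2 : ContDiffOn ℝ n (fun t => (WithLp.prodContinuousLinearEquiv 2 ℝ V V) (W t)) I :=
    (WithLp.prodContinuousLinearEquiv 2 ℝ V V).contDiff.comp_contDiffOn hW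
  have hU : ∀ t ∈ I, S.ι (W t).ofLp.1 = z t ∧ S.ι (W t).ofLp.2 = z₁ t := by
    intro t ht
    have e := hW' t ht
    have e' := h1 (W t).ofLp.1 (W t).ofLp.2
    rw [Prod.mk.eta, WithLp.toLp_ofLp, e] at e'
    have e'' := congrArg WithLp.ofLp e'
    simp only [Prod.mk.injEq] at e''
    exact ⟨e''.1.symm, e''.2.symm⟩
  have hV : ContDiffOn ℝ n (fun t => (W t).ofLp.2) I := hW2.snd
  have hd : ∀ t ∈ I, HasDerivAt (fun t => (W t).ofLp.1) (W t).ofLp.2 t := by
    intro t ht
    refine deriv_of_prim hI hV.continuousOn (fun s hs t ht => S.inj ?_) ht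
    rw [map_sub, (hU t ht).1, (hU s hs).1]
    exact sub_eq hI S.ι hz hL.cont (Loc2.of_cont hI hV.continuousOn)
      (Eventually.of_forall fun r hr => (hU r hr).2) hs ht
  refine ⟨fun t => (W t).ofLp.1, ?_, fun t ht => (hU t ht).1⟩
  rw [Nat.cast_succ, contDiffOn_succ_iff_deriv_of_isOpen hI.1]
  refine ⟨fun t ht => (hd t ht).differentiableAt.differentiableWithinAt, by simp,
    hV.congr fun t ht => (hd t ht).deriv⟩

end Smooth

open Smooth

theorem smooth : OfSmooth := by
  intro hD hB H V _ _ _ _ _ _ S I z Z hI h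
  have hP : ∀ n, Pn n := fun n => by
    induction n with
    | zero => exact p0 hD
    | succ n ih => exact step hD hB ih
  obtain ⟨U, -, hU⟩ := hP 0 hI h
  have hs : ContDiffOn ℝ ∞ U I := by
    rw [contDiffOn_infty]
    intro n
    obtain ⟨W, hW, hW'⟩ := hP n hI h
    exact hW.congr fun t ht => S.inj (by rw [hU t ht, hW' t ht])
  refine ⟨U, ⟨hs, fun t ht => ?_⟩, hU⟩
  have d1 : HasDerivAt U (deriv U t) t :=
    ((hs.contDiffAt (hI.1.mem_nhds ht)).differentiableAt (by simp)).hasDerivAt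
  have d2 : HasDerivAt (fun x => adj S.ι (S.ι (U x))) (adj S.ι (S.ι (deriv U t))) t :=
    (adj S.ι).hasFDerivAt.comp_hasDerivAt t (S.ι.hasFDerivAt.comp_hasDerivAt t d1)
  have d3 : HasDerivAt (fun x => adj S.ι (S.ι (U x))) (S.G (U t)) t := by
    refine deriv_of_prim (g := fun x => S.G (U x)) hI
      (S.cont_G.comp_continuousOn hs.continuousOn) (fun a ha b hb => ?_) ht
    rw [hU a ha, hU b hb, h.eq a ha b hb]
    refine intervalIntegral.integral_congr_ae (h.lift.mono fun r e hr => ?_)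
    have hr' := hI.uIcc ha hb (uIoc_subset_uIcc hr)
    rw [S.inj ((e hr').trans (hU r hr').symm)]
  exact d2.unique d3

end Pool.Agent.MP_ed9623_an.H77
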