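import Pool.Agent.MP_ed9623_an.H77.SpecZ

/-! The Baire category step. -/

open MeasureTheory Filter Topology Set
open scoped ContDiff InnerProductSpace

namespace Pool.Agent.MP_ed9623_an.H77

open H64

namespace TriA

theorem closedA {a w : ℝ → E6} (ha : ContDiff ℝ ∞ a) (hw : ContDiff ℝ ∞ w) (N : Set P) :
    IsClosed {t | ∀ ζ, (∀ j, Test N (ζ j)) →
      E1 (fun _ => 0) (vl (a t)) (vl (w t)) (gj (w t)) (vl (deriv w t)) ζ} := by
  simp only [ofPred_forall]
  refine isClosed_iInter fun ζ => isClosed_iInter fun hζ => ?_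
  obtain ⟨l, hl⟩ := exists_ip fun j => (hζ j).m2
  obtain ⟨d, hd⟩ := exists_di fun j => (hζ j).top
  obtain ⟨b, hb⟩ := exists_tl fun j => (hζ j).top
  have ca := ha.continuous
  have cw := hw.continuous
  have cd : Continuous (deriv w) := by
    simpa only [iteratedDeriv_one] using (sm_iter hw 1).continuous
  have e : {t | E1 (fun _ => 0) (vl (a t)) (vl (w t)) (gj (w t)) (vl (deriv w t)) ζ}
      = {t | l (deriv w t) + d (w t) - b (a t) (w t) - b (w t) (a t) = 0} := by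
    ext t
    simp only [mem_ofPred_eq, E1, hl, hd, hb]
  rw [e]
  exact isClosed_eq (by fun_prop) continuous_const

theorem closedB {a : ℝ → E6} (ha : ContDiff ℝ ∞ a) (N : Set P) :
    IsClosed {t | ∀ j, Van N (vl (a t) j)} := by
  simp only [ofPred_forall]
  exact isClosed_iInter fun j => (isClosed_VanS N (j, none)).preimage ha.continuous

end TriA

open TriA

theorem rowTriA : OfTriA := by
  intro hD Ω x τ γ r R α β g a w hΩ hC hγ h hαβ
  let A : ℕ → Set ℝ := fun n => {t | ∀ ζ, (∀ j, Test (Metric.ball x (1 / ((n : ℝ) + 1))) (ζ j)) →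
    E1 (fun _ => 0) (vl (a t)) (vl (w t)) (gj (w t)) (vl (deriv w t)) ζ}
  let B : ℕ → Set ℝ := fun n => {t | ∀ j, Van (Metric.ball x (1 / ((n : ℝ) + 1))) (vl (a t) j)}
  have hc : ∀ s : ℕ ⊕ ℕ, IsClosed (Sum.elim A B s) := by
    rintro (n | n)
    exacts [closedA h.sa h.sw _, closedB h.sa _]
  have hU : ⋃ s : ℕ ⊕ ℕ, Sum.elim A B s = univ := by
    refine eq_univ_of_forall fun t => ?_
    have ma := mem_VZ.1 (h.ma t)
    have mw := mem_VZ.1 (h.mw t)
    have mz := mem_VZ.1 (h.mz t)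
    obtain ⟨ε, ε0, hε⟩ := hD Ω x τ γ r R _ _ _ _ _ _ _ _ hΩ hC hγ ma.1 mw.1 mz.1
      (fun j => ⟨ma.2 (j, none), mw.2 (j, none), mz.2 (j, none), fun i => ma.2 (j, some i)⟩)
      (h.p1 t) (h.p2 t) (h.e1 t)
    obtain ⟨n, hn⟩ := exists_nat_one_div_lt ε0
    have hs : Metric.ball x (1 / ((n : ℝ) + 1)) ⊆ Metric.ball x ε := Metric.ball_subset_ball hn.le
    rcases hε with hε | hε
    · exact mem_iUnion.2 ⟨Sum.inl n, fun ζ hζ => hε ζ fun j => (hζ j).mono hs⟩
    · exact mem_iUnion.2 ⟨Sum.inr n, fun j => (hε j).mono hs⟩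
  obtain ⟨t, ht, ht'⟩ := (dense_iUnion_interior_of_closed hc hU).inter_open_nonempty _ isOpen_Ioo
    (nonempty_Ioo.2 hαβ)
  obtain ⟨s, hs⟩ := mem_iUnion.1 ht'
  rcases s with n | n
  · exact ⟨Ioo α β ∩ interior (A n), 1 / ((n : ℝ) + 1), isOpen_Ioo.inter isOpen_interior,
      ⟨t, ht, hs⟩, inter_subset_left, Nat.one_div_pos_of_nat,
      Or.inl fun u hu => interior_subset hu.2⟩
  · exact ⟨Ioo α β ∩ interior (B n), 1 / ((n : ℝ) + 1), isOpen_Ioo.inter isOpen_interior,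
      ⟨t, ht, hs⟩, inter_subset_left, Nat.one_div_pos_of_nat,
      Or.inr fun u hu => interior_subset hu.2⟩

end Pool.Agent.MP_ed9623_an.H77
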